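import Pool.Agent.H381R4.CM.Stubs

/-! Task ROT of project CM (helper381): rotation invariant densities give zero-sum couplings
(helper624). -/

set_option autoImplicit false
open MeasureTheory Matrix Filter Topology
open scoped ENNReal BigOperators Pointwise

namespace Pool.Agent.H381CM

/-- the rotation -/
noncomputable def rotR {d : ℕ} (θ : ℝ) (q : V d × V d × V d) : V d × V d × V d :=
  (Real.cos θ • q.1 + Real.sin θ • q.2.1, -(Real.sin θ) • q.1 + Real.cos θ • q.2.1, q.2.2)

theorem rot_shear2 (d : ℕ) (s : ℝ) : MeasurePreserving
    (fun q : V d × V d × V d => (q.1, (q.2.1 + s • q.1, q.2.2))) volume volume := by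
  have h := MeasurePreserving.skew_product (μa := (volume : Measure (V d)))
    (μb := (volume : Measure (V d))) (μc := (volume : Measure (V d × V d)))
    (μd := (volume : Measure (V d × V d))) (f := fun x : V d => x)
    (g := fun (x : V d) (y : V d × V d) => y + (s • x, 0))
    (MeasurePreserving.id volume) (by
      apply Measurable.add
      · exact measurable_snd
      · exact Measurable.prodMk (measurable_fst.const_smul s) measurable_const)
    (by
      refine Filter.Eventually.of_forall fun x => ?_
      exact map_add_right_eq_self ((volume : Measure (V d)).prod (volume : Measure (V d))) _)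
  have e : (fun q : V d × V d × V d => (q.1, (q.2.1 + s • q.1, q.2.2)))
      = fun p : V d × V d × V d => (p.1, p.2 + (s • p.1, (0 : V d))) := by
    funext q
    refine Prod.ext rfl (Prod.ext rfl ?_)
    simp
  rw [e]
  exact h

theorem rot_shear1 (d : ℕ) (s : ℝ) : MeasurePreserving
    (fun q : V d × V d × V d => (q.1 + s • q.2.1, q.2)) volume volume := by
  have h := MeasurePreserving.skew_product (μa := (volume : Measure (V d × V d)))
    (μb := (volume : Measure (V d × V d))) (μc := (volume : Measure (V d)))
    (μd := (volume : Measure (V d))) (f := fun x : V d × V d => x)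
    (g := fun (x : V d × V d) (y : V d) => y + s • x.1)
    (MeasurePreserving.id volume) (by
      apply Measurable.add
      · exact measurable_snd
      · exact (measurable_fst.comp measurable_fst).const_smul s)
    (by
      refine Filter.Eventually.of_forall fun x => ?_
      exact map_add_right_eq_self _ _)
  have h1 : MeasurePreserving (Prod.swap : V d × V d × V d → (V d × V d) × V d)
      volume volume := Measure.measurePreserving_swap
  have h2 : MeasurePreserving (Prod.swap : (V d × V d) × V d → V d × V d × V d)
      volume volume := Measure.measurePreserving_swap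
  exact h2.comp (h.comp h1)

theorem rot_mp (d : ℕ) (θ : ℝ) : MeasurePreserving (rotR (d := d) θ) volume volume := by
  by_cases hc : Real.cos θ = -1
  · have hs : Real.sin θ = 0 := by
      have := Real.sin_sq_add_cos_sq θ
      rw [hc] at this
      nlinarith
    have h1 : MeasurePreserving (fun x : V d => -x) volume volume :=
      Measure.measurePreserving_neg volume
    have h2 := h1.prod (h1.prod (MeasurePreserving.id (volume : Measure (V d))))
    have h3 : rotR (d := d) θ = Prod.map (fun x : V d => -x) (Prod.map (fun x : V d => -x) id) := by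
      funext q
      refine Prod.ext ?_ (Prod.ext ?_ rfl)
      · simp [rotR, hc, hs]
      · simp [rotR, hc, hs]
    rw [h3]
    exact h2
  · have hc1 : 1 + Real.cos θ ≠ 0 := by
      intro h
      exact hc (by linarith)
    set a := Real.sin θ / (1 + Real.cos θ) with ha
    have ha1 : a * (1 + Real.cos θ) = Real.sin θ := by
      rw [ha]; field_simp
    have ha2 : 1 - a * Real.sin θ = Real.cos θ := by
      have := Real.sin_sq_add_cos_sq θ
      have h5 : (1 - a * Real.sin θ - Real.cos θ) * (1 + Real.cos θ) = 0 := by
        have : (1 - a * Real.sin θ - Real.cos θ) * (1 + Real.cos θ)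
            = 1 - Real.cos θ ^ 2 - (a * (1 + Real.cos θ)) * Real.sin θ := by ring
        rw [this, ha1]
        nlinarith
      rcases mul_eq_zero.1 h5 with h6 | h6
      · linarith
      · exact absurd h6 hc1
    have h := (rot_shear1 d a).comp ((rot_shear2 d (-Real.sin θ)).comp (rot_shear1 d a))
    convert h using 1
    funext q
    obtain ⟨x, y, z⟩ := q
    refine Prod.ext ?_ (Prod.ext ?_ rfl)
    · funext i
      simp only [rotR, Function.comp_apply, Pi.add_apply, Pi.smul_apply, smul_eq_mul]
      have e1 : x i + a * y i + a * (y i + -Real.sin θ * (x i + a * y i))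
          = (1 - a * Real.sin θ) * x i + (a * (1 + (1 - a * Real.sin θ))) * y i := by ring
      rw [e1, ha2, ha1]
    · funext i
      simp only [rotR, Function.comp_apply, Pi.add_apply, Pi.smul_apply, smul_eq_mul]
      have e1 : y i + -Real.sin θ * (x i + a * y i)
          = -Real.sin θ * x i + (1 - a * Real.sin θ) * y i := by ring
      rw [e1, ha2]

theorem rot_sum (n : ℕ) (hn : 2 ≤ n) :
    (∑ j : Fin n, Real.cos (2 * Real.pi * (j : ℕ) / n) = 0) ∧
    (∑ j : Fin n, Real.sin (2 * Real.pi * (j : ℕ) / n) = 0) := by
  have hn0 : n ≠ 0 := by omega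
  have hprim := Complex.isPrimitiveRoot_exp n hn0
  have h1 := hprim.geom_sum_eq_zero (by omega : 1 < n)
  have h2 : ∑ j : Fin n, Complex.exp (((2 * Real.pi * (j : ℕ) / n : ℝ) : ℂ) * Complex.I) = 0 := by
    rw [← h1, Finset.sum_range]
    refine Finset.sum_congr rfl fun j _ => ?_
    rw [← Complex.exp_nat_mul]
    congr 1
    push_cast
    ring
  constructor
  · have := congrArg Complex.re h2
    rw [Complex.re_sum] at this
    simp only [Complex.exp_ofReal_mul_I_re, Complex.zero_re] at this
    exact this
  · have := congrArg Complex.im h2
    rw [Complex.im_sum] at this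
    simp only [Complex.exp_ofReal_mul_I_im, Complex.zero_im] at this
    exact this

theorem T_ROT : S_ROT := by
  intro d n hn G hG hinv g hg hg1
  set Gq : V d × V d × V d → ℝ≥0∞ := fun q => G q.1 q.2.1 q.2.2 with hGq
  set μ : Measure (V d × V d × V d) := (volume : Measure (V d × V d × V d)).withDensity Gq with hμ
  have hrotm : ∀ θ, Measurable (rotR (d := d) θ) := fun θ => (rot_mp d θ).measurable
  have hmap : ∀ θ, μ.map (rotR θ) = μ := by
    intro θ
    ext s hs
    rw [Measure.map_apply (hrotm θ) hs, hμ, withDensity_apply _ ((hrotm θ) hs),
      withDensity_apply _ hs]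
    rw [← (rot_mp d θ).setLIntegral_comp_preimage hs hG]
    refine lintegral_congr fun q => ?_
    exact (hinv θ q.1 q.2.1 q.2.2).symm
  have hfst : μ.map Prod.fst = volume.withDensity g := by
    ext s hs
    rw [Measure.map_apply measurable_fst hs, hμ, withDensity_apply _ (measurable_fst hs),
      withDensity_apply _ hs]
    have e1 : (Prod.fst ⁻¹' s : Set (V d × V d × V d)) = s ×ˢ Set.univ := by
      ext q; simp
    rw [e1, show (volume : Measure (V d × V d × V d)) = (volume : Measure (V d)).prod volume
      from rfl]
    rw [setLIntegral_prod _ hG.aemeasurable.restrict]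
    refine lintegral_congr fun x => ?_
    rw [Measure.restrict_univ]
    exact hg x
  have huniv : μ Set.univ = 1 := by
    have : μ Set.univ = (μ.map Prod.fst) Set.univ := by
      rw [Measure.map_apply measurable_fst MeasurableSet.univ, Set.preimage_univ]
    rw [this, hfst, withDensity_apply _ MeasurableSet.univ, Measure.restrict_univ, hg1]
  set F : V d × V d × V d → (Fin n → V d) := fun q j =>
    Real.cos (2 * Real.pi * (j : ℕ) / n) • q.1 + Real.sin (2 * Real.pi * (j : ℕ) / n) • q.2.1
    with hF
  have hFm : Measurable F := by
    refine measurable_pi_lambda _ fun j => ?_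
    exact ((measurable_fst : Measurable (Prod.fst : V d × V d × V d → V d)).const_smul
      (Real.cos (2 * Real.pi * (j : ℕ) / n))).add
      (((measurable_fst.comp measurable_snd :
        Measurable (fun q : V d × V d × V d => q.2.1))).const_smul
      (Real.sin (2 * Real.pi * (j : ℕ) / n)))
  refine ⟨μ.map F, ?_, ?_, ?_⟩
  · exact ⟨by rw [Measure.map_apply hFm MeasurableSet.univ, Set.preimage_univ, huniv]⟩
  · intro j
    rw [Measure.map_map (measurable_pi_apply j) hFm]
    have e1 : ((fun x : Fin n → V d => x j) ∘ F)
        = Prod.fst ∘ (rotR (2 * Real.pi * (j : ℕ) / n)) := rfl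
    rw [e1, ← Measure.map_map measurable_fst (hrotm _), hmap, hfst]
  · rw [ae_map_iff hFm.aemeasurable (measurableSet_eq_fun
      (Finset.measurable_sum _ fun i _ => measurable_pi_apply i) measurable_const)]
    refine Filter.Eventually.of_forall fun q => ?_
    simp only [hF]
    rw [Finset.sum_add_distrib, ← Finset.sum_smul, ← Finset.sum_smul, (rot_sum n hn).1,
      (rot_sum n hn).2, zero_smul, zero_smul, add_zero]

end Pool.Agent.H381CM
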